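import Mathlib
import Pool.Agent.V11313.Surplus

namespace Pool.Agent.Results.MP_04e67f_nt.HRises

open Pool.Agent.V11313.Surplus

/-- The strictly increasing enumeration `b` of the record setters `B₁` exists (that is, `B₁` is
infinite), and for infinitely many indices `j` one has `h (b j) < h (b (j + 1))`. -/
theorem result : ∃ b : ℕ → ℕ, StrictMono b ∧ Set.range b = B1 ∧
    {j : ℕ | h (b j) < h (b (j + 1))}.Infinite := by
  refine ⟨Nat.nth (· ∈ B1), Nat.nth_strictMono B1_infinite, Nat.range_nth_of_infinite B1_infinite, ?_⟩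
  set b := Nat.nth (· ∈ B1) with hb
  have hrange : ∀ x ∈ B1, ∃ j, b j = x := by
    intro x hx
    have hr : Set.range b = B1 := Nat.range_nth_of_infinite B1_infinite
    have : x ∈ Set.range b := hr ▸ hx
    exact this
  have hmem : ∀ j, b j ∈ B1 := fun j => Nat.nth_mem_of_infinite B1_infinite j
  intro hfin
  obtain ⟨J, hJ⟩ := hfin.bddAbove
  have hdec : ∀ j, J + 1 ≤ j → h (b (j + 1)) ≤ h (b j) := by
    intro j hj
    by_contra hcon
    push Not at hcon
    have := hJ (show j ∈ {j : ℕ | h (b j) < h (b (j + 1))} from hcon)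
    omega
  have hdec2 : ∀ j, J + 1 ≤ j → h (b j) ≤ h (b (J + 1)) := by
    intro j hj
    induction j, hj using Nat.le_induction with
    | base => exact le_rfl
    | succ m hm ih => exact (hdec m hm).trans ih
  obtain ⟨K, hK⟩ : ∃ K : ℝ, ∀ x ∈ B1, h x ≤ K := by
    have hfin2 : (((Finset.range (J + 2)).image (fun j => h (b j)) : Finset ℝ) : Set ℝ).Finite :=
      Finset.finite_toSet _
    obtain ⟨K, hK⟩ := hfin2.bddAbove
    refine ⟨K, fun x hx => ?_⟩
    obtain ⟨j, rfl⟩ := hrange x hx
    have hmem' : ∀ i < J + 2, h (b i) ≤ K := by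
      intro i hi
      apply hK
      rw [Finset.mem_coe, Finset.mem_image]
      exact ⟨i, Finset.mem_range.mpr hi, rfl⟩
    by_cases hj : j < J + 2
    · exact hmem' j hj
    · exact (hdec2 j (by omega)).trans (hmem' (J + 1) (by omega))
  obtain ⟨P, _, hP⟩ := exists_prod_ge (max 2 (2 * K + 1)) 0
  have hnd := NP_nonDeficient ((le_max_left _ _).trans hP)
  obtain ⟨x, hx, hxle, hgx⟩ := exists_record (odd_NP P) hnd
  have h1 : 2 * K + 1 ≤ H (NP P) := ((le_max_right _ _).trans hP).trans (H_NP_ge P)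
  have hxnd : NonDeficient x := hx.2.1
  have h2 := two_le_H hxnd
  have h3 := H_le_two_h hxnd.1.ne'
  have h4 := hK x hx
  have hsq : Real.sqrt x ≤ Real.sqrt (NP P) := Real.sqrt_le_sqrt (by exact_mod_cast hxle)
  have hsp : 0 < Real.sqrt (NP P) := Real.sqrt_pos.mpr (by exact_mod_cast NP_pos P)
  have h5 : g x ≤ (H x - 2) * Real.sqrt (NP P) := by
    unfold g S
    exact mul_le_mul_of_nonneg_left hsq (by linarith)
  have h6 : (H (NP P) - 2) * Real.sqrt (NP P) ≤ (H x - 2) * Real.sqrt (NP P) := by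
    have : g (NP P) = (H (NP P) - 2) * Real.sqrt (NP P) := rfl
    linarith
  have h7 := le_of_mul_le_mul_right h6 hsp
  linarith

end Pool.Agent.Results.MP_04e67f_nt.HRises
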